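import Pool.Agent.Helper18.PS.All3

/-!
# Solutions of `φ(σ(n)) = φ(n)`: finitely many families `m (2 q - 1)`, `m ≤ M`, give all but a small proportion

For all but at most `C N / ((1 + log M) (log N) ^ 2)` of the `n ≤ N` (`N` large in terms of `M`): `n` is a solution if and only if
`n = m (2 q - 1)` with `m ≤ M`, primes `q > exp((log N) ^ (2 / 3))` and `2 q - 1`, `2 q - 1 ∤ m`, `q ∤ σ(m)`, and `σ(m)` even,
`φ(σ(m)) = φ(m)`, or `σ(m)` odd, `φ(σ(m)) = 2 φ(m)`.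
-/

set_option autoImplicit false

noncomputable section

namespace Pool.Agent.Results.MP_4afa08_nt.FiniteFamilies

open Classical in
theorem result : ∃ C : ℝ, 0 < C ∧ ∀ M : ℕ, 1 ≤ M → ∃ N₀ : ℕ, ∀ N : ℕ, N₀ ≤ N →
    (((Finset.Icc 1 N).filter (fun n : ℕ =>
      ¬ (Nat.totient (ArithmeticFunction.sigma 1 n) = Nat.totient n ↔
        ∃ m q : ℕ, m ≤ M ∧ q.Prime ∧ (2 * q - 1).Prime ∧ Real.exp (Real.log N ^ (2 / 3 : ℝ)) < q ∧
          n = m * (2 * q - 1) ∧ ¬ (2 * q - 1) ∣ m ∧ ¬ q ∣ ArithmeticFunction.sigma 1 m ∧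
          ((Even (ArithmeticFunction.sigma 1 m) ∧ Nat.totient (ArithmeticFunction.sigma 1 m) = Nat.totient m) ∨
            (Odd (ArithmeticFunction.sigma 1 m) ∧
              Nat.totient (ArithmeticFunction.sigma 1 m) = 2 * Nat.totient m))))).card : ℝ) ≤
      C * N / ((1 + Real.log M) * Real.log N ^ 2) := by
  obtain ⟨C, hC, h⟩ := Pool.Agent.Helper18.PS.families
  refine ⟨C, hC, fun M hM => ?_⟩
  obtain ⟨N₀, h⟩ := h M hM
  refine ⟨N₀, fun N hN => le_trans (le_of_eq ?_) (h N hN)⟩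
  rw [Nat.cast_inj]
  refine congrArg Finset.card (Finset.ext fun n => ?_)
  rw [Finset.mem_filter, Finset.mem_filter]
  exact Iff.rfl

end Pool.Agent.Results.MP_4afa08_nt.FiniteFamilies
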