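import Pool.Agent.Helper18.PS.All

/-!
# Solutions of `φ(σ(n)) = φ(n)` come from pairs of primes `q`, `2 q - 1`, up to a small set

For all but at most `N exp(-c (log N) ^ (1 / 3))` of the `n ≤ N`: `n` is a solution of `φ(σ(n)) = φ(n)` if and only if `n = m (2 q - 1)` with
primes `q > exp((log N) ^ (2 / 3))` and `2 q - 1`, `2 q - 1 ∤ m`, `q ∤ σ(m)`, and `σ(m)` even, `φ(σ(m)) = φ(m)`, or `σ(m)` odd,
`φ(σ(m)) = 2 φ(m)`.
-/

set_option autoImplicit false

noncomputable section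

namespace Pool.Agent.Results.MP_4afa08_nt.PrimePairs

open Classical in
theorem result : ∃ c : ℝ, 0 < c ∧ ∃ N₀ : ℕ, ∀ N : ℕ, N₀ ≤ N →
    (((Finset.Icc 1 N).filter (fun n : ℕ =>
      ¬ (Nat.totient (ArithmeticFunction.sigma 1 n) = Nat.totient n ↔
        ∃ m q : ℕ, q.Prime ∧ (2 * q - 1).Prime ∧ Real.exp (Real.log N ^ (2 / 3 : ℝ)) < q ∧
          n = m * (2 * q - 1) ∧ ¬ (2 * q - 1) ∣ m ∧ ¬ q ∣ ArithmeticFunction.sigma 1 m ∧
          ((Even (ArithmeticFunction.sigma 1 m) ∧ Nat.totient (ArithmeticFunction.sigma 1 m) = Nat.totient m) ∨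
            (Odd (ArithmeticFunction.sigma 1 m) ∧
              Nat.totient (ArithmeticFunction.sigma 1 m) = 2 * Nat.totient m))))).card : ℝ) ≤
      N * Real.exp (-(c * Real.log N ^ (1 / 3 : ℝ))) := by
  obtain ⟨c, hc, N₀, h⟩ := Pool.Agent.Helper18.PS.fin
  refine ⟨c, hc, N₀, fun N hN => le_trans (le_of_eq ?_) (h N hN)⟩
  rw [Nat.cast_inj]
  refine congrArg Finset.card (Finset.ext fun n => ?_)
  rw [Finset.mem_filter, Finset.mem_filter]
  exact Iff.rfl

end Pool.Agent.Results.MP_4afa08_nt.PrimePairs
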